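import Mathlib
import Pool.Agent.H85.FW.W0

/-!
# Comb2: counting the sets of blocks which meet a set of points
-/

set_option autoImplicit false

namespace Pool.Agent.H85.FW

open Finset

variable {N r : ℕ} {S : Finset (Fin N)} {Q Q' : Finset (Finset (Fin N))}

private theorem mem_cm93 : Q ∈ cm r S ↔ Cm r S Q := by
  simp [cm]

/-- at most one block for each point -/
theorem cm_qcard_93 (hQ : Cm r S Q) : Q.card ≤ S.card := by
  classical
  obtain ⟨h1, h2, -⟩ := hQ
  choose f hf hf' using fun (B : Finset (Fin N)) (hB : B ∈ Q) => (h1 B hB).2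
  rw [← card_attach]
  refine card_le_card_of_injOn (fun x : {B // B ∈ Q} => f x.1 x.2) (fun x _ => hf x.1 x.2) ?_
  rintro ⟨B, hB⟩ - ⟨B', hB'⟩ - e
  have e' : f B hB = f B' hB' := e
  by_contra hne
  have h3 := h2 B hB B' hB' fun h => hne (Subtype.ext h)
  have h4 : f B hB ∈ B := hf' B hB
  have h5 : f B hB ∈ B' := by rw [e']; exact hf' B' hB'
  exact disjoint_left.1 h3 h4 h5

/-- `cm r (insert a S)` is contained in the image of the pairs `(Q, B)` under `insert B Q` -/
theorem cm_card_93 (r : ℕ) (S : Finset (Fin N)) : (cm r S).card ≤ (N ^ r) ^ S.card := by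
  classical
  induction S using Finset.induction_on with
  | empty =>
    rw [card_empty, pow_zero, card_le_one]
    intro Q hQ Q' hQ'
    rw [mem_cm93] at hQ hQ'
    have h : ∀ Q : Finset (Finset (Fin N)), Cm r ∅ Q → Q = ∅ := by
      intro Q hQ
      rw [eq_empty_iff_forall_notMem]
      intro B hB
      obtain ⟨-, a, ha, -⟩ := hQ.1 B hB
      exact absurd ha (notMem_empty a)
    rw [h Q hQ, h Q' hQ']
  | insert a S ha ih =>
    have hsub : cm r (insert a S) ⊆ (cm r S ×ˢ powersetCard r (univ : Finset (Fin N))).image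
        fun x => insert x.2 x.1 := by
      intro Q hQ
      rw [mem_cm93] at hQ
      obtain ⟨h1, h2, h3⟩ := hQ
      obtain ⟨B, hB, haB⟩ := h3 a (mem_insert_self a S)
      have hBr : B ∈ powersetCard r (univ : Finset (Fin N)) := mem_powersetCard_univ.2 (h1 B hB).1
      rw [mem_image]
      by_cases h : ∃ b ∈ S, b ∈ B
      · refine ⟨(Q, B), mem_product.2 ⟨mem_cm93.2 ⟨?_, h2, fun b hb => h3 b (mem_insert_of_mem hb)⟩, hBr⟩,
          insert_eq_of_mem hB⟩
        intro B' hB'
        refine ⟨(h1 B' hB').1, ?_⟩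
        by_cases hBB : B' = B
        · rw [hBB]; exact h
        · obtain ⟨b, hb, hb'⟩ := (h1 B' hB').2
          rcases mem_insert.1 hb with rfl | hb
          · exact absurd haB (disjoint_left.1 (h2 B' hB' B hB hBB) hb')
          · exact ⟨b, hb, hb'⟩
      · push Not at h
        refine ⟨(Q.erase B, B), mem_product.2 ⟨mem_cm93.2 ⟨?_, ?_, ?_⟩, hBr⟩, insert_erase hB⟩
        · intro B' hB'
          have hB'Q := mem_of_mem_erase hB'
          have hBB := ne_of_mem_erase hB'
          refine ⟨(h1 B' hB'Q).1, ?_⟩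
          obtain ⟨b, hb, hb'⟩ := (h1 B' hB'Q).2
          rcases mem_insert.1 hb with rfl | hb
          · exact absurd haB (disjoint_left.1 (h2 B' hB'Q B hB hBB) hb')
          · exact ⟨b, hb, hb'⟩
        · intro B' hB' B'' hB'' hne
          exact h2 B' (mem_of_mem_erase hB') B'' (mem_of_mem_erase hB'') hne
        · intro b hb
          obtain ⟨B', hB', hbB⟩ := h3 b (mem_insert_of_mem hb)
          refine ⟨B', mem_erase.2 ⟨?_, hB'⟩, hbB⟩
          rintro rfl
          exact h b hb hbB
    have h4 : (powersetCard r (univ : Finset (Fin N))).card ≤ N ^ r := by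
      rw [card_powersetCard, card_univ, Fintype.card_fin]
      exact Nat.choose_le_pow _ _
    calc (cm r (insert a S)).card
        ≤ ((cm r S ×ˢ powersetCard r (univ : Finset (Fin N))).image fun x => insert x.2 x.1).card :=
          card_le_card hsub
      _ ≤ (cm r S ×ˢ powersetCard r (univ : Finset (Fin N))).card := card_image_le
      _ = (cm r S).card * (powersetCard r (univ : Finset (Fin N))).card := card_product _ _
      _ ≤ (N ^ r) ^ S.card * N ^ r := Nat.mul_le_mul ih h4
      _ = (N ^ r) ^ (insert a S).card := by rw [card_insert_of_notMem ha, pow_succ]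

/-- `S` lies in one block -/
theorem cm_nonempty_93 (hS : S.card ≤ r) (hr : r ≤ N) : (cm r S).Nonempty := by
  classical
  rcases S.eq_empty_or_nonempty with rfl | ⟨a, ha⟩
  · refine ⟨∅, mem_cm93.2 ⟨?_, ?_, ?_⟩⟩
    · intro B hB; exact absurd hB (notMem_empty _)
    · intro B hB; exact absurd hB (notMem_empty _)
    · intro b hb; exact absurd hb (notMem_empty _)
  · obtain ⟨B, hSB, hB⟩ := exists_superset_card_eq hS (by rw [Fintype.card_fin]; exact hr)
    refine ⟨{B}, mem_cm93.2 ⟨?_, ?_, ?_⟩⟩
    · intro B' hB'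
      rw [mem_singleton.1 hB']
      exact ⟨hB, a, ha, hSB ha⟩
    · intro B' hB' B'' hB'' hne
      exact absurd ((mem_singleton.1 hB').trans (mem_singleton.1 hB'').symm) hne
    · intro b hb
      exact ⟨B, mem_singleton_self B, hSB hb⟩

end Pool.Agent.H85.FW
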